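import Mathlib
import Pool.Agent.Helper32.SierTri.Defs
import Pool.Agent.Helper32.SierTri6.Data

/-!
# The local check inside one tile of side 64
-/

namespace Pool.Agent.Helper32.SierTri6

open Pool.Agent.Helper32.SierTri

/-- the small triangles of one tile -/
def SmallTri (t : ℕ × ℕ) : Prop := t.1 < 64 ∧ t.2 < 64 ∧ t.1 &&& t.2 = 0

/-- the graph of one tile -/
def Loc : SimpleGraph (ℕ × ℕ) where
  Adj p q := p ≠ q ∧ ∃ t, SmallTri t ∧ p ∈ tri t ∧ q ∈ tri t
  symm := ⟨fun _ _ h => ⟨h.1.symm, h.2.imp fun _ ht => ⟨ht.1, ht.2.2, ht.2.1⟩⟩⟩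
  loopless := ⟨fun _ h => h.1 rfl⟩

/-- vertices of the tile -/
def IsV (p : ℕ × ℕ) : Prop := ∃ t, SmallTri t ∧ p ∈ tri t

/-- index of a lattice point in bit masks -/
def idx (p : ℕ × ℕ) : ℕ := p.1 + 65 * p.2

/-- one step of breadth first search on bit masks -/
def step (S : ℕ) : ℕ :=
  S ||| ((fun H => H ||| (H <<< 1) ||| (H <<< 65)) ((S ||| (S >>> 1) ||| (S >>> 65)) &&& triMask))

/-- ball on bit masks -/
def ball : ℕ → ℕ → ℕ
  | 0, S => S
  | r + 1, S => step (ball r S)

theorem mem_tri {p t : ℕ × ℕ} : p ∈ tri t ↔ p = t ∨ p = (t.1 + 1, t.2) ∨ p = (t.1, t.2 + 1) := by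
  simp [tri]

theorem triMask_spec : ∀ i < 64, ∀ j < 64, i &&& j = 0 → triMask.testBit (i + 65 * j) = true := by
  decide +kernel

theorem step_mono {S v : ℕ} (h : S.testBit v = true) : (step S).testBit v = true := by
  simp [step, h]

theorem ball_mono {S v r r' : ℕ} (hr : r ≤ r') (h : (ball r S).testBit v = true) :
    (ball r' S).testBit v = true := by
  induction r', hr using Nat.le_induction with
  | base => exact h
  | succ k _ ih => exact step_mono ih

theorem step_adj {S : ℕ} {p q t : ℕ × ℕ} (ht : SmallTri t) (hp : p ∈ tri t) (hq : q ∈ tri t)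
    (h : S.testBit (idx p) = true) : (step S).testBit (idx q) = true := by
  obtain ⟨i, j⟩ := t
  obtain ⟨h1, h2, h3⟩ := ht
  have hm : triMask.testBit (i + 65 * j) = true := triMask_spec i h1 j h2 h3
  have hH : ((S ||| (S >>> 1) ||| (S >>> 65)) &&& triMask).testBit (i + 65 * j) = true := by
    rw [Nat.testBit_and, hm, Nat.testBit_or, Nat.testBit_or, Nat.testBit_shiftRight,
      Nat.testBit_shiftRight]
    rw [mem_tri] at hp
    rcases hp with rfl | rfl | rfl
    · simp only [idx] at h; simp [h]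
    · have : 1 + (i + 65 * j) = idx (i + 1, j) := by simp [idx]; ring
      rw [this]; simp [h]
    · have : 65 + (i + 65 * j) = idx (i, j + 1) := by simp [idx]; ring
      rw [this]; simp [h]
  unfold step
  rw [Nat.testBit_or]
  generalize (S ||| (S >>> 1) ||| (S >>> 65)) &&& triMask = H at hH
  simp only [Nat.testBit_or, Nat.testBit_shiftLeft]
  rw [mem_tri] at hq
  rcases hq with rfl | rfl | rfl
  · have : idx (i, j) = i + 65 * j := rfl
    simp only [this]; simp [hH]
  · have : idx (i + 1, j) - 1 = i + 65 * j := by simp only [idx]; omega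
    have h4 : 1 ≤ idx (i + 1, j) := by simp only [idx]; omega
    simp only [this]; simp [hH, h4]
  · have : idx (i, j + 1) - 65 = i + 65 * j := by simp only [idx]; omega
    have h4 : 65 ≤ idx (i, j + 1) := by simp only [idx]; omega
    simp only [this]; simp [hH, h4]

theorem ball_walk {p q : ℕ × ℕ} (w : Loc.Walk p q) :
    (ball w.length (1 <<< idx q)).testBit (idx p) = true := by
  induction w with
  | nil => simp [ball]
  | cons h w ih =>
    have h' := h
    obtain ⟨_, t, ht, h1, h2⟩ := h'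
    rw [SimpleGraph.Walk.length_cons]
    exact step_adj ht h2 h1 ih

theorem ball_edist {p q : ℕ × ℕ} {r : ℕ} (h : Loc.edist p q ≤ r) :
    (ball r (1 <<< idx q)).testBit (idx p) = true := by
  have hne : Loc.edist p q ≠ ⊤ := by
    intro h'; rw [h'] at h; exact absurd h (by simp)
  obtain ⟨w, hw⟩ := SimpleGraph.exists_walk_of_edist_ne_top hne
  rw [← hw] at h
  exact ball_mono (by exact_mod_cast h) (ball_walk w)

/-- the colour of the lattice point with index `v`, read off from the list of masks -/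
def colOf (ms : List ℕ) (v : ℕ) : ℕ := ms.findIdx (fun m => m.testBit v)

/-- mask of colour `c` -/
def msk (ms : List ℕ) (c : ℕ) : ℕ := ms.getD c 0

/-- check of the thresholds at the corner with index `P` and type `s` -/
def chkCorner (ms : List ℕ) (s : Bool) (P : ℕ) : Bool :=
  (List.range (K + 1)).all fun c =>
    (ball (if s then thr.getD c 0 - 1 else c - thr.getD c 0) (1 <<< P) &&& msk ms c) ==
      ((1 <<< P) &&& msk ms c)

/-- the complete check of a tile -/
def chk (s0 s1 s2 : Bool) : Bool :=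
  (masks s0 s1 s2).length == K + 1 &&
  msk (masks s0 s1 s2) 0 == 0 &&
  (masks s0 s1 s2).foldr (· ||| ·) 0 == (triMask ||| (triMask <<< 1) ||| (triMask <<< 65)) &&
  colOf (masks s0 s1 s2) 0 == gam &&
  colOf (masks s0 s1 s2) 64 == gam &&
  colOf (masks s0 s1 s2) 4160 == gam &&
  chkCorner (masks s0 s1 s2) s0 0 &&
  chkCorner (masks s0 s1 s2) s1 64 &&
  chkCorner (masks s0 s1 s2) s2 4160 &&
  (List.range 4225).all fun v =>
    !((triMask ||| (triMask <<< 1) ||| (triMask <<< 65)).testBit v) ||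
      (ball (colOf (masks s0 s1 s2) v) (1 <<< v) &&& msk (masks s0 s1 s2) (colOf (masks s0 s1 s2) v)) ==
        1 <<< v

theorem chk_all : ∀ s0 s1 s2, ¬ (s0 = s1 ∧ s1 = s2) → chk s0 s1 s2 = true := by
  decide +kernel

theorem thr_ok : ∀ c < K + 1, 1 ≤ c → 1 ≤ thr.getD c 0 ∧ thr.getD c 0 ≤ c := by
  decide +kernel

theorem corner_far : ∀ P ∈ [0, 64, 4160], ∀ Q ∈ [0, 64, 4160], P ≠ Q →
    (ball 63 (1 <<< P)).testBit Q = false := by
  decide +kernel

end Pool.Agent.Helper32.SierTri6
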