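import Mathlib
import Pool.Agent.Helper32.SierTri6.Tiles

/-!
# The colouring
-/

namespace Pool.Agent.Helper32.SierTri6

open Pool.Agent.Helper32.SierTri

theorem foldr_or_testBit (l : List ℕ) (v : ℕ) :
    (l.foldr (· ||| ·) 0).testBit v = true → ∃ m ∈ l, m.testBit v = true := by
  induction l with
  | nil => simp
  | cons a l ih =>
    intro h
    simp only [List.foldr_cons, Nat.testBit_or, Bool.or_eq_true] at h
    rcases h with h | h
    · exact ⟨a, by simp, h⟩
    · obtain ⟨m, hm, h'⟩ := ih h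
      exact ⟨m, by simp [hm], h'⟩

theorem vertMask_spec {q : ℕ × ℕ} (hq : IsV q) :
    (triMask ||| (triMask <<< 1) ||| (triMask <<< 65)).testBit (idx q) = true := by
  obtain ⟨⟨i, j⟩, ⟨h1, h2, h3⟩, hp⟩ := hq
  have hm : triMask.testBit (i + 65 * j) = true := triMask_spec i h1 j h2 h3
  simp only [Nat.testBit_or, Nat.testBit_shiftLeft]
  rw [mem_tri] at hp
  rcases hp with rfl | rfl | rfl
  · have : idx (i, j) = i + 65 * j := rfl
    simp only [this]; simp [hm]
  · have : idx (i + 1, j) - 1 = i + 65 * j := by simp only [idx]; omega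
    have h4 : 1 ≤ idx (i + 1, j) := by simp only [idx]; omega
    simp only [this]; simp [hm, h4]
  · have : idx (i, j + 1) - 65 = i + 65 * j := by simp only [idx]; omega
    have h4 : 65 ≤ idx (i, j + 1) := by simp only [idx]; omega
    simp only [this]; simp [hm, h4]

/-- what the check gives -/
structure Good (ms : List ℕ) (s0 s1 s2 : Bool) : Prop where
  len : ms.length = K + 1
  zero : msk ms 0 = 0
  cover : ms.foldr (· ||| ·) 0 = (triMask ||| (triMask <<< 1) ||| (triMask <<< 65))
  c0 : colOf ms 0 = gam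
  c1 : colOf ms 64 = gam
  c2 : colOf ms 4160 = gam
  t0 : chkCorner ms s0 0 = true
  t1 : chkCorner ms s1 64 = true
  t2 : chkCorner ms s2 4160 = true
  pack : ∀ v < 4225, (triMask ||| (triMask <<< 1) ||| (triMask <<< 65)).testBit v = true →
    (ball (colOf ms v) (1 <<< v) &&& msk ms (colOf ms v)) = 1 <<< v

theorem good_of_chk {s0 s1 s2 : Bool} (h : chk s0 s1 s2 = true) :
    Good (masks s0 s1 s2) s0 s1 s2 := by
  unfold chk at h
  simp only [Bool.and_eq_true, beq_iff_eq, List.all_eq_true, List.mem_range, Bool.or_eq_true,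
    Bool.not_eq_true'] at h
  obtain ⟨⟨⟨⟨⟨⟨⟨⟨⟨h1, h2⟩, h3⟩, h4⟩, h5⟩, h6⟩, h7⟩, h8⟩, h9⟩, h10⟩ := h
  refine ⟨h1, h2, h3, h4, h5, h6, h7, h8, h9, ?_⟩
  intro v hv hb
  rcases h10 v hv with h | h
  · rw [h] at hb; exact absurd hb (by simp)
  · exact h

section

variable {ms : List ℕ} {s0 s1 s2 : Bool}

theorem Good.col (g : Good ms s0 s1 s2) {q : ℕ × ℕ} (hq : IsV q) :
    1 ≤ colOf ms (idx q) ∧ colOf ms (idx q) < K + 1 ∧
      (msk ms (colOf ms (idx q))).testBit (idx q) = true := by
  have h1 : ∃ m ∈ ms, m.testBit (idx q) = true := by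
    apply foldr_or_testBit
    rw [g.cover]; exact vertMask_spec hq
  have hlt : ms.findIdx (fun m => m.testBit (idx q)) < ms.length :=
    List.findIdx_lt_length.2 h1
  have hget := List.findIdx_getElem (w := hlt)
  have h2 : (msk ms (colOf ms (idx q))).testBit (idx q) = true := by
    unfold msk colOf
    rw [List.getD_eq_getElem _ _ hlt]
    exact hget
  refine ⟨?_, by rw [← g.len]; exact hlt, h2⟩
  rcases Nat.eq_zero_or_pos (colOf ms (idx q)) with h | h
  · rw [h, g.zero] at h2; simp at h2
  · exact h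

theorem idx_inj {q r : ℕ × ℕ} (hq : IsV q) (hr : IsV r) (h : idx q = idx r) : q = r := by
  have h1 := isV_sum hq
  have h2 := isV_sum hr
  simp only [idx] at h
  ext <;> omega

theorem idx_lt {q : ℕ × ℕ} (hq : IsV q) : idx q < 4225 := by
  have h1 := isV_sum hq
  simp only [idx]
  omega

theorem testBit_one_shl {v w : ℕ} (h : (1 <<< v : ℕ).testBit w = true) : v = w := by
  rw [Nat.one_shiftLeft, Nat.testBit_two_pow] at h
  simpa using h

theorem Good.in_tile (g : Good ms s0 s1 s2) {q r : ℕ × ℕ} (hq : IsV q) (hr : IsV r) (hne : q ≠ r)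
    (hc : colOf ms (idx q) = colOf ms (idx r)) :
    ¬ Loc.edist q r ≤ (colOf ms (idx q) : ℕ) := by
  intro hd
  have h1 := ball_edist hd
  obtain ⟨_, a2, a3⟩ := g.col hq
  have h2 := g.pack _ (idx_lt hr) (vertMask_spec hr)
  rw [← hc] at h2
  have h3 : ((ball (colOf ms (idx q)) (1 <<< idx r)) &&& msk ms (colOf ms (idx q))).testBit (idx q)
      = true := by
    rw [Nat.testBit_and, h1, a3]; rfl
  rw [h2] at h3
  exact hne (idx_inj hq hr (testBit_one_shl h3).symm)

theorem corner_aux {s : Bool} {P q : ℕ × ℕ} (g : Good ms s0 s1 s2)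
    (hs : chkCorner ms s (idx P) = true) (hP : IsV P) (hq : IsV q) (hne : q ≠ P) :
    ¬ Loc.edist q P ≤ ((if s then thr.getD (colOf ms (idx q)) 0 - 1 else
      colOf ms (idx q) - thr.getD (colOf ms (idx q)) 0 : ℕ) : ℕ∞) := by
  intro hd
  have h1 := ball_edist hd
  obtain ⟨_, a2, a3⟩ := g.col hq
  unfold chkCorner at hs
  rw [List.all_eq_true] at hs
  have h2 := hs _ (List.mem_range.2 a2)
  rw [beq_iff_eq] at h2
  have h3 : ((ball (if s then thr.getD (colOf ms (idx q)) 0 - 1 else
      colOf ms (idx q) - thr.getD (colOf ms (idx q)) 0) (1 <<< idx P)) &&&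
        msk ms (colOf ms (idx q))).testBit (idx q) = true := by
    rw [Nat.testBit_and, h1, a3]; rfl
  rw [h2, Nat.testBit_and, Bool.and_eq_true] at h3
  exact hne (idx_inj hq hP (testBit_one_shl h3.1).symm)

end

/-- types of the corners of the tile `A` -/
def tys (n : ℕ) (A : ℕ × ℕ) (i : ℕ) : Bool := ty n i A.1 A.2

/-- the list of masks used in tile `A` -/
def mst (n : ℕ) (A : ℕ × ℕ) : List ℕ := masks (tys n A 1) (tys n A 2) (tys n A 3)

theorem good_tile (n : ℕ) (A : ℕ × ℕ) :
    Good (mst n A) (tys n A 1) (tys n A 2) (tys n A 3) :=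
  good_of_chk (chk_all _ _ _ (ty_nonconst n A.1 A.2))

theorem isV_corner {i : ℕ} (hi : i ∈ [1, 2, 3]) : IsV (cornerAt i) := by
  simp only [List.mem_cons, List.not_mem_nil, or_false] at hi
  rcases hi with rfl | rfl | rfl
  · exact ⟨(0, 0), ⟨by norm_num, by norm_num, by simp⟩, by rw [mem_tri]; simp [cornerAt]⟩
  · exact ⟨(63, 0), ⟨by norm_num, by norm_num, by simp⟩, by rw [mem_tri]; simp [cornerAt]⟩
  · exact ⟨(0, 63), ⟨by norm_num, by norm_num, by simp⟩, by rw [mem_tri]; simp [cornerAt]⟩

/-- distance from a corner in a tile -/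
theorem corner_dist (n : ℕ) (A : ℕ × ℕ) {i : ℕ} (hi : i ∈ [1, 2, 3]) {q : ℕ × ℕ} (hq : IsV q)
    (hne : q ≠ cornerAt i) :
    ¬ Loc.edist q (cornerAt i) ≤ ((if tys n A i then thr.getD (colOf (mst n A) (idx q)) 0 - 1 else
      colOf (mst n A) (idx q) - thr.getD (colOf (mst n A) (idx q)) 0 : ℕ) : ℕ∞) := by
  have g := good_tile n A
  have hv := isV_corner hi
  simp only [List.mem_cons, List.not_mem_nil, or_false] at hi
  rcases hi with rfl | rfl | rfl
  · exact corner_aux g (P := cornerAt 1) g.t0 hv hq hne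
  · exact corner_aux g (P := cornerAt 2) g.t1 hv hq hne
  · exact corner_aux g (P := cornerAt 3) g.t2 hv hq hne

theorem col_corner (n : ℕ) (A : ℕ × ℕ) {i : ℕ} (hi : i ∈ [1, 2, 3]) :
    colOf (mst n A) (idx (cornerAt i)) = gam := by
  have g := good_tile n A
  simp only [List.mem_cons, List.not_mem_nil, or_false] at hi
  rcases hi with rfl | rfl | rfl
  · exact g.c0
  · exact g.c1
  · exact g.c2

/-- different corners of a tile are at distance larger than `63` -/
theorem corner_corner {i j : ℕ} (hi : i ∈ [1, 2, 3]) (hj : j ∈ [1, 2, 3])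
    (hne : cornerAt i ≠ cornerAt j) : ¬ Loc.edist (cornerAt i) (cornerAt j) ≤ (63 : ℕ) := by
  intro h
  have h1 := ball_edist h
  have hidx : idx (cornerAt i) ≠ idx (cornerAt j) := fun h' =>
    hne (idx_inj (isV_corner hi) (isV_corner hj) h')
  have key : ∀ k, k ∈ [1, 2, 3] → idx (cornerAt k) ∈ [0, 64, 4160] := by
    intro k hk
    simp only [List.mem_cons, List.not_mem_nil, or_false] at hk
    rcases hk with rfl | rfl | rfl <;> simp [cornerAt, idx]
  have h2 := corner_far _ (key j hj) _ (key i hi) hidx.symm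
  rw [h1] at h2
  exact absurd h2 (by simp)

/-! ### the colouring of the points -/

/-- colour of the point `p` seen from the tile `A` -/
def val (n : ℕ) (A p : ℕ × ℕ) : ℕ := colOf (mst n A) (idx (loc A p))

open Classical in
/-- the colour of a point -/
noncomputable def colP (n : ℕ) (p : ℕ × ℕ) : ℕ :=
  if h : ∃ A ∈ base n, Mem A p then val n h.choose p else 1

theorem colP_eq {n : ℕ} {A p : ℕ × ℕ} (hA : A ∈ base n) (hp : Mem A p) : colP n p = val n A p := by
  have h : ∃ A ∈ base n, Mem A p := ⟨A, hA, hp⟩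
  unfold colP
  rw [dif_pos h]
  obtain ⟨hB, hpB⟩ := h.choose_spec
  generalize h.choose = B at hB hpB
  by_cases hAB : B = A
  · rw [hAB]
  · obtain ⟨i, j, hi, hj, h1, h2, _⟩ := tiles_meet hB hA hAB hpB hp
    unfold val
    rw [h1, h2, col_corner n B hi, col_corner n A hj]

theorem mem_isV {A p : ℕ × ℕ} (h : Mem A p) : IsV (loc A p) := h.2.2

theorem colP_range {n : ℕ} {A p : ℕ × ℕ} (hA : A ∈ base n) (hp : Mem A p) :
    1 ≤ colP n p ∧ colP n p ≤ K := by
  rw [colP_eq hA hp]
  have := (good_tile n A).col (mem_isV hp)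
  exact ⟨this.1, by have := this.2.1; unfold val; omega⟩

/-- `w` is reached from `v` in at most `ℓ` steps, near `v` -/
def Near (n : ℕ) (v w : ℕ × ℕ) (ℓ : ℕ) : Prop :=
  ∃ A ∈ base n, Mem A v ∧ ((Mem A w ∧ Loc.edist (loc A v) (loc A w) ≤ ℓ) ∨
    ∃ B ∈ base n, B ≠ A ∧ Mem B w ∧ ∃ P, Mem A P ∧ Mem B P ∧ ∃ a b : ℕ, a + b ≤ ℓ ∧
      Loc.edist (loc A v) (loc A P) ≤ a ∧ Loc.edist (loc B P) (loc B w) ≤ b)

theorem near_step {n : ℕ} {v w w' t : ℕ × ℕ} {ℓ : ℕ} (hℓ : ℓ ≤ 63) (ht : t ∈ base (n + 6))
    (hw : w ∈ tri t) (hw' : w' ∈ tri t) (hne : w ≠ w') (h : Near n v w ℓ) :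
    Near n v w' (ℓ + 1) := by
  obtain ⟨C, hC, cw, cw', hadj⟩ := edge_tile ht hw hw' hne
  have hone : Loc.edist (loc C w) (loc C w') ≤ 1 := by
    rw [SimpleGraph.edist_eq_one_iff_adj.2 hadj]
  obtain ⟨A, hA, av, h⟩ := h
  refine ⟨A, hA, av, ?_⟩
  rcases h with ⟨aw, hd⟩ | ⟨B, hB, hBA, bw, P, aP, bP, a, b, hab, ha, hb⟩
  · by_cases hCA : C = A
    · subst hCA
      left
      refine ⟨cw', ?_⟩
      calc Loc.edist (loc C v) (loc C w') ≤ Loc.edist (loc C v) (loc C w) +
            Loc.edist (loc C w) (loc C w') := SimpleGraph.edist_triangle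
        _ ≤ ℓ + 1 := add_le_add hd hone
        _ = ((ℓ + 1 : ℕ) : ℕ∞) := by push_cast; rfl
    · right
      exact ⟨C, hC, hCA, cw', w, aw, cw, ℓ, 1, le_refl _, hd, by simpa using hone⟩
  · by_cases hCB : C = B
    · subst hCB
      right
      refine ⟨C, hC, hBA, cw', P, aP, bP, a, b + 1, by omega, ha, ?_⟩
      calc Loc.edist (loc C P) (loc C w') ≤ Loc.edist (loc C P) (loc C w) +
            Loc.edist (loc C w) (loc C w') := SimpleGraph.edist_triangle
        _ ≤ b + 1 := add_le_add hb hone
        _ = ((b + 1 : ℕ) : ℕ∞) := by push_cast; rfl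
    · -- `w` is a corner of `B`, hence `w = P`
      have hwP : w = P := by
        by_contra hwP
        obtain ⟨i, _, hi, _, h1, _, _⟩ := tiles_meet hB hC (Ne.symm hCB) bw cw
        obtain ⟨j, _, hj, _, h2, _, _⟩ := tiles_meet hB hA hBA bP aP
        have hne2 : cornerAt j ≠ cornerAt i := by
          intro h'
          rw [← h1, ← h2] at h'
          apply hwP
          obtain ⟨m1, m2, _⟩ := bw
          obtain ⟨m3, m4, _⟩ := bP
          simp only [loc, Prod.mk.injEq] at h'
          ext <;> omega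
        apply corner_corner hj hi hne2
        rw [← h1, ← h2]
        exact le_trans hb (by exact_mod_cast (by omega : b ≤ 63))
      subst hwP
      by_cases hCA : C = A
      · subst hCA
        left
        refine ⟨cw', ?_⟩
        calc Loc.edist (loc C v) (loc C w') ≤ Loc.edist (loc C v) (loc C w) +
              Loc.edist (loc C w) (loc C w') := SimpleGraph.edist_triangle
          _ ≤ a + 1 := add_le_add ha hone
          _ ≤ ((ℓ + 1 : ℕ) : ℕ∞) := by exact_mod_cast (by omega : a + 1 ≤ ℓ + 1)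
      · right
        exact ⟨C, hC, hCA, cw', w, aP, cw, a, 1, by omega, ha, by simpa using hone⟩

theorem K_le : K ≤ 63 := by decide

/-- two different points of the same colour `c` are not near for `c` -/
theorem not_near {n : ℕ} {v w : ℕ × ℕ} (hne : v ≠ w) (hc : colP n v = colP n w) :
    ¬ Near n v w (colP n v) := by
  rintro ⟨A, hA, av, h⟩
  have inA : ∀ (A : ℕ × ℕ), A ∈ base n → ∀ p q, Mem A p → Mem A q → p ≠ q → colP n p = colP n q →
      ¬ Loc.edist (loc A p) (loc A q) ≤ (colP n p : ℕ) := by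
    intro A hA p q hp hq hpq hcc hd
    rw [colP_eq hA hp] at hd
    rw [colP_eq hA hp, colP_eq hA hq] at hcc
    refine (good_tile n A).in_tile (mem_isV hp) (mem_isV hq) ?_ hcc hd
    intro h'
    apply hpq
    obtain ⟨m1, m2, _⟩ := hp
    obtain ⟨m3, m4, _⟩ := hq
    simp only [loc, Prod.mk.injEq] at h'
    ext <;> omega
  rcases h with ⟨aw, hd⟩ | ⟨B, hB, hBA, bw, P, aP, bP, a, b, hab, ha, hb⟩
  · exact inA A hA v w av aw hne hc hd
  · by_cases hvP : v = P
    · subst hvP
      refine inA B hB v w bP bw hne hc (le_trans hb ?_)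
      exact_mod_cast (by omega : b ≤ colP n v)
    · by_cases hwP : w = P
      · subst hwP
        refine inA A hA v w av aP hne hc (le_trans ha ?_)
        exact_mod_cast (by omega : a ≤ colP n v)
      · obtain ⟨i, j, hi, hj, h1, h2, h3⟩ := tiles_meet hA hB (Ne.symm hBA) aP bP
        have locne : ∀ (A p : ℕ × ℕ), Mem A p → Mem A P → p ≠ P → loc A p ≠ loc A P := by
          intro A p hp hq hpq h'
          apply hpq
          obtain ⟨m1, m2, _⟩ := hp
          obtain ⟨m3, m4, _⟩ := hq
          simp only [loc, Prod.mk.injEq] at h'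
          ext <;> omega
        have e1 := corner_dist n A hi (mem_isV av) (by rw [← h1]; exact locne A v av aP hvP)
        have e2 := corner_dist n B hj (mem_isV bw) (by rw [← h2]; exact locne B w bw bP hwP)
        have cv : colOf (mst n A) (idx (loc A v)) = colP n v := (colP_eq hA av).symm
        have cw : colOf (mst n B) (idx (loc B w)) = colP n v := by
          rw [hc]; exact (colP_eq hB bw).symm
        rw [cv, ← h1] at e1
        rw [cw, ← h2] at e2
        rw [SimpleGraph.edist_comm] at hb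
        have r := colP_range hA av
        have t := thr_ok (colP n v) (by omega) r.1
        have f1 : (if tys n A i then thr.getD (colP n v) 0 - 1 else
            colP n v - thr.getD (colP n v) 0) < a := by
          by_contra hcon
          exact e1 (le_trans ha (by exact_mod_cast (not_lt.1 hcon)))
        have f2 : (if tys n B j then thr.getD (colP n v) 0 - 1 else
            colP n v - thr.getD (colP n v) 0) < b := by
          by_contra hcon
          exact e2 (le_trans hb (by exact_mod_cast (not_lt.1 hcon)))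
        have h3' : tys n A i = !tys n B j := h3
        generalize thr.getD (colP n v) 0 = T at f1 f2 t
        rcases hB' : tys n B j with _ | _
        · rw [hB'] at h3' f2
          rw [h3'] at f1
          rw [if_neg (by simp)] at f2
          rw [if_pos (by simp)] at f1
          omega
        · rw [hB'] at h3' f2
          rw [h3'] at f1
          rw [if_pos rfl] at f2
          rw [if_neg (by simp)] at f1
          omega

/-! ### walks in the stage graph -/

theorem near_walk {n : ℕ} {x y : Vert (n + 6)} (w : (SierTri.ST (n + 6)).Walk x y) (hℓ : w.length ≤ 63) :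
    Near n y.1 x.1 w.length := by
  induction w with
  | nil =>
    rename_i u
    obtain ⟨t, ht, hp⟩ := u.2
    obtain ⟨A, hA, hm⟩ := vert_tile ht hp
    exact ⟨A, hA, hm, Or.inl ⟨hm, by simp⟩⟩
  | cons h w ih =>
    have h' := h
    obtain ⟨hne, t, ht, h1, h2⟩ := h'
    rw [SimpleGraph.Walk.length_cons] at hℓ ⊢
    refine near_step (by omega) ht h2 h1 ?_ (ih (by omega))
    intro h''
    exact hne (Subtype.ext h''.symm)

end Pool.Agent.Helper32.SierTri6
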