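import Mathlib
import Pool.Agent.Helper32.SierTri6.Main

/-!
# Connectedness of the Sierpinski triangle graphs
-/

namespace Pool.Agent.Helper32.SierTri6

open Pool.Agent.Helper32.SierTri

/-- two points are corners of a common small triangle of stage `n` -/
def Rel (n : ℕ) (p q : ℕ × ℕ) : Prop := ∃ t ∈ base n, p ∈ tri t ∧ q ∈ tri t

/-- the point is linked to the origin in stage `n` -/
def Cn (n : ℕ) (p : ℕ × ℕ) : Prop := Relation.ReflTransGen (Rel n) (0, 0) p

theorem Cn.mono {n : ℕ} {p : ℕ × ℕ} (h : Cn n p) : Cn (n + 1) p := by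
  induction h with
  | refl => exact Relation.ReflTransGen.refl
  | tail _ h ih =>
    obtain ⟨t, ht, h⟩ := h
    exact ih.tail ⟨t, base_mono ht, h⟩

theorem end_mem : ∀ n, ((2 ^ n - 1, 0) : ℕ × ℕ) ∈ base n ∧ ((0, 2 ^ n - 1) : ℕ × ℕ) ∈ base n := by
  intro n
  induction n with
  | zero => simp [base]
  | succ n ih =>
    have h1 : 1 ≤ 2 ^ n := Nat.one_le_two_pow
    have h2 : 2 ^ (n + 1) - 1 = 2 ^ n - 1 + 2 ^ n := by rw [pow_succ]; omega
    rw [h2]
    exact ⟨base_succ.2 (Or.inr (Or.inl ⟨_, ih.1, rfl⟩)), base_succ.2 (Or.inr (Or.inr ⟨_, ih.2, rfl⟩))⟩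

theorem rel_shift1 {n : ℕ} {p q : ℕ × ℕ} (h : Rel n p q) :
    Rel (n + 1) (p.1 + 2 ^ n, p.2) (q.1 + 2 ^ n, q.2) := by
  obtain ⟨t, ht, hp, hq⟩ := h
  refine ⟨(t.1 + 2 ^ n, t.2), base_succ.2 (Or.inr (Or.inl ⟨t, ht, rfl⟩)), ?_, ?_⟩
  · rw [mem_tri] at hp ⊢
    rcases hp with rfl | rfl | rfl <;> simp <;> omega
  · rw [mem_tri] at hq ⊢
    rcases hq with rfl | rfl | rfl <;> simp <;> omega

theorem rel_shift2 {n : ℕ} {p q : ℕ × ℕ} (h : Rel n p q) :
    Rel (n + 1) (p.1, p.2 + 2 ^ n) (q.1, q.2 + 2 ^ n) := by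
  obtain ⟨t, ht, hp, hq⟩ := h
  refine ⟨(t.1, t.2 + 2 ^ n), base_succ.2 (Or.inr (Or.inr ⟨t, ht, rfl⟩)), ?_, ?_⟩
  · rw [mem_tri] at hp ⊢
    rcases hp with rfl | rfl | rfl <;> simp <;> omega
  · rw [mem_tri] at hq ⊢
    rcases hq with rfl | rfl | rfl <;> simp <;> omega

theorem cn_all : ∀ n, ∀ t ∈ base n, ∀ p ∈ tri t, Cn n p := by
  intro n
  induction n with
  | zero =>
    intro t ht p hp
    have : t = (0, 0) := by simpa [base] using ht
    subst this
    exact Relation.ReflTransGen.single ⟨(0, 0), by simp [base], by rw [mem_tri]; simp, hp⟩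
  | succ n ih =>
    intro t ht p hp
    have h1 : 1 ≤ 2 ^ n := Nat.one_le_two_pow
    rcases base_succ.1 ht with h | ⟨q, hq, rfl⟩ | ⟨q, hq, rfl⟩
    · exact (ih t h p hp).mono
    · have h0 : Cn (n + 1) (2 ^ n, 0) := by
        apply Cn.mono
        apply ih _ (end_mem n).1
        rw [mem_tri]; right; left
        ext <;> simp; omega
      obtain ⟨p', hp', rfl⟩ : ∃ p' ∈ tri q, p = (p'.1 + 2 ^ n, p'.2) := by
        rw [mem_tri] at hp
        rcases hp with rfl | rfl | rfl
        · exact ⟨q, by rw [mem_tri]; simp, rfl⟩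
        · exact ⟨(q.1 + 1, q.2), by rw [mem_tri]; simp, by ext <;> simp; omega⟩
        · exact ⟨(q.1, q.2 + 1), by rw [mem_tri]; simp, by ext <;> simp⟩
      refine Relation.ReflTransGen.trans h0 ?_
      have h2 := ih q hq p' hp'
      clear hp hp'
      induction h2 with
      | refl => simpa using Relation.ReflTransGen.refl
      | tail _ h ih => exact ih.tail (rel_shift1 h)
    · have h0 : Cn (n + 1) (0, 2 ^ n) := by
        apply Cn.mono
        apply ih _ (end_mem n).2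
        rw [mem_tri]; right; right
        ext <;> simp; omega
      obtain ⟨p', hp', rfl⟩ : ∃ p' ∈ tri q, p = (p'.1, p'.2 + 2 ^ n) := by
        rw [mem_tri] at hp
        rcases hp with rfl | rfl | rfl
        · exact ⟨q, by rw [mem_tri]; simp, rfl⟩
        · exact ⟨(q.1 + 1, q.2), by rw [mem_tri]; simp, by ext <;> simp⟩
        · exact ⟨(q.1, q.2 + 1), by rw [mem_tri]; simp, by ext <;> simp; omega⟩
      refine Relation.ReflTransGen.trans h0 ?_
      have h2 := ih q hq p' hp'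
      clear hp hp'
      induction h2 with
      | refl => simpa using Relation.ReflTransGen.refl
      | tail _ h ih => exact ih.tail (rel_shift2 h)

theorem origin_mem (n : ℕ) : ∃ t ∈ base n, ((0, 0) : ℕ × ℕ) ∈ tri t := by
  refine ⟨(0, 0), ?_, by rw [mem_tri]; simp⟩
  induction n with
  | zero => simp [base]
  | succ n ih => exact base_mono ih

theorem reach_origin (n : ℕ) (p : ℕ × ℕ) (h : Cn n p) :
    ∃ hp : ∃ t ∈ base n, p ∈ tri t, (SierTri.ST n).Reachable ⟨(0, 0), origin_mem n⟩ ⟨p, hp⟩ := by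
  induction h with
  | refl => exact ⟨origin_mem n, SimpleGraph.Reachable.refl _⟩
  | @tail b c _ hbc ih =>
    obtain ⟨t, ht, hb, hc⟩ := hbc
    obtain ⟨hb', ih⟩ := ih
    refine ⟨⟨t, ht, hc⟩, ?_⟩
    by_cases hne : b = c
    · subst hne; exact ih
    · refine ih.trans (SimpleGraph.Adj.reachable ?_)
      exact ⟨fun h => hne (congrArg Subtype.val h), t, ht, hb, hc⟩

/-- `SierTri.ST n` is connected: any two vertices are joined by a walk -/
theorem ST_reachable (n : ℕ) (u v : Vert n) : (SierTri.ST n).Reachable u v := by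
  obtain ⟨t, ht, hu⟩ := u.2
  obtain ⟨s, hs, hv⟩ := v.2
  obtain ⟨_, h1⟩ := reach_origin n u.1 (cn_all n t ht u.1 hu)
  obtain ⟨_, h2⟩ := reach_origin n v.1 (cn_all n s hs v.1 hv)
  exact h1.symm.trans h2

theorem base_mono' {n : ℕ} : ∀ m, base n ⊆ base (n + m) := by
  intro m
  induction m with
  | zero => exact fun _ h => h
  | succ m ih => exact fun _ h => base_mono (ih h)

/-- inclusion of stage `n` in stage `n + 6` -/
def incl (n : ℕ) : SierTri.ST n →g SierTri.ST (n + 6) where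
  toFun v := ⟨v.1, v.2.imp fun _ h => ⟨base_mono' 6 h.1, h.2⟩⟩
  map_rel' := by
    intro a b h
    obtain ⟨hne, t, ht, ha, hb⟩ := h
    exact ⟨fun h => hne (Subtype.ext (by simpa using congrArg Subtype.val h)), t, base_mono' 6 ht, ha, hb⟩

theorem packing_coloring (n : ℕ) : ∃ c : Vert n → ℕ, IsPackingColoring (SierTri.ST n) K c := by
  refine ⟨fun v => colP n v.1, ?_, ?_⟩
  · intro v
    obtain ⟨t, ht, hv⟩ := v.2
    obtain ⟨A, hA, hm⟩ := vert_tile (base_mono' 6 ht) hv
    exact colP_range hA hm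
  · intro u v hne hc
    by_contra hlt
    rw [not_lt] at hlt
    obtain ⟨w, hw⟩ := (ST_reachable n u v).exists_walk_length_eq_dist
    have hK := K_le
    obtain ⟨t, ht, hv⟩ := u.2
    obtain ⟨A, hA, hm⟩ := vert_tile (base_mono' 6 ht) hv
    have hr := (colP_range hA hm).2
    have hlen : (w.map (incl n)).length ≤ colP n u.1 := by
      rw [SimpleGraph.Walk.length_map, hw]; exact hlt
    have h1 := near_walk (n := n) (w.map (incl n)) (by omega)
    have h2 : Near n v.1 u.1 (colP n v.1) := by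
      have hc' : colP n u.1 = colP n v.1 := hc
      rw [← hc']
      obtain ⟨A, hA, av, h⟩ := h1
      refine ⟨A, hA, av, ?_⟩
      rcases h with ⟨aw, hd⟩ | ⟨B, hB, hBA, bw, P, aP, bP, a, b, hab, ha, hb⟩
      · exact Or.inl ⟨aw, le_trans hd (by exact_mod_cast hlen)⟩
      · exact Or.inr ⟨B, hB, hBA, bw, P, aP, bP, a, b, by omega, ha, hb⟩
    exact not_near (fun h => hne (Subtype.ext h.symm)) hc.symm h2

end Pool.Agent.Helper32.SierTri6
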